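import Pool.Agent.Lib.MP_eee45d_an.PowerSeries
import Pool.Agent.Lib.MP_eee45d_an.L2Final

/-!
# Uniqueness of free monotone transport: Lipschitz maps with a Sobolev inverse

Let `X` be a free semicircular family in a tracial von Neumann algebra.  If `Y` and `Y'` are
self-adjoint elements of the class `𝒞` (the `L²`-closure of the cyclic gradients `𝒟g(X)` with
`𝒥𝒟g(X) ≥ 0`) such that

* each `Y_i`, `Y'_i` is in the domain of the `L²`-closure of the free difference quotients of `X`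
  and its derivatives are bounded, and
* each `X_i` is in the domain of the `L²`-closure of the free difference quotients of `Y`, and of
  those of `Y'`,

and if `Y` and `Y'` have the same law, then `Y = Y'`.  Nothing is assumed about the common law, and
the Jacobians are not assumed to be bounded from below.
-/

open scoped ComplexOrder CStarAlgebra
open MulOpposite

noncomputable section

namespace FreeMono

variable {A 𝔐 : Type*} [CStarAlgebra A] [CStarAlgebra 𝔐]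
variable {ι : Type*} [DecidableEq ι]

lemma IsFreeSemicircular.sd {τ : A →L[ℂ] ℂ} {tr : 𝔐 →L[ℂ] ℂ} {l : A →⋆ₐ[ℂ] 𝔐}
    {r : Aᵐᵒᵖ →⋆ₐ[ℂ] 𝔐} (hc : IsCoarse τ tr l r) {X : ι → A} (hX : IsFreeSemicircular τ X) :
    SD τ tr l r X := by
  intro j w
  rw [hX.schwingerDyson, fdq, map_sum]
  refine Finset.sum_congr rfl fun p _ => ?_
  split_ifs
  · exact (hc.fact _ _).symm
  · simp

end FreeMono

namespace Pool.Agent.Results.MP_eee45d_an.SobolevInverseUniqueness

open FreeMono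

theorem result {A 𝔐 : Type*} [CStarAlgebra A] [CStarAlgebra 𝔐] {ι : Type*} [DecidableEq ι]
    [Fintype ι] (τ : A →L[ℂ] ℂ) (tr : 𝔐 →L[ℂ] ℂ) (l : A →⋆ₐ[ℂ] 𝔐) (r : Aᵐᵒᵖ →⋆ₐ[ℂ] 𝔐)
    (hc : IsCoarse τ tr l r) (hA : BallComplete τ) (h𝔐 : BallComplete tr)
    (X Y Y' : ι → A) (hX : IsFreeSemicircular τ X)
    (hYsa : ∀ i, IsSelfAdjoint (Y i)) (hY'sa : ∀ i, IsSelfAdjoint (Y' i))
    (hY : InC τ l r X Y) (hY' : InC τ l r X Y')
    (hinv : SobolevInvertible τ tr l r X Y) (hinv' : SobolevInvertible τ tr l r X Y')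
    (hlaw : ∀ w : List ι, τ (ev Y w) = τ (ev Y' w)) : Y = Y' := by
  have hsd := hX.sd hc
  have hweak : ∀ {Y : ι → A} {B : ι → ι → 𝔐}, (∀ i, (Y i, B i) ∈ Gr2 hc X) → InC τ l r X Y →
      ∀ ξ : ι → 𝔐, (∀ i, ξ i ∈ PolL hc.trace' (LR l r X)) →
        0 ≤ ∑ i, ∑ j, tr (star (ξ i) * B i j * ξ j) := by
    intro Y B hB hY ξ hξ
    refine weak_pos2 hc hX.selfAdjoint hsd hB (fun ε hε => ?_) ξ hξ
    obtain ⟨g, R, hR, hg, ⟨s, hs⟩, hlt⟩ := hY ε hε
    exact ⟨grad g X, jacobian l r g X, s,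
      fun i => Gr_le_Gr2 hc X (grad_mem hX.norm_le hR hg i), hs, hlt⟩
  obtain ⟨h1, h2⟩ := hinv
  obtain ⟨h1', h2'⟩ := hinv'
  choose B hB using h1
  choose B' hB' using h1'
  have hBm := fun i => (hB i).mem hc
  have hBm' := fun i => (hB' i).mem hc
  exact unique3 (B := B) (B' := B') hc hA h𝔐 hX.selfAdjoint hYsa hY'sa hsd hBm h2 hBm' h2'
    (hweak hBm hY) (hweak hBm' hY') hlaw

end Pool.Agent.Results.MP_eee45d_an.SobolevInverseUniqueness
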